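import Mathlib

/-!
# Finite rooted trees through parent functions
-/

set_option autoImplicit false

namespace Pool.Agent.R815.Root

open SimpleGraph

variable {V : Type} (G : SimpleGraph V) (r : V)

/-- a parent function with a rank -/
structure Par (par : V → V) (ρ : V → ℕ) : Prop where
  adj : ∀ x, x ≠ r → G.Adj x (par x)
  lt : ∀ x, x ≠ r → ρ (par x) < ρ x
  edge : ∀ x y, G.Adj x y → (x ≠ r ∧ par x = y) ∨ (y ≠ r ∧ par y = x)

variable {G r}

theorem Par.reachable {par : V → V} {ρ : V → ℕ} (h : Par G r par ρ) (x : V) : G.Reachable x r := by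
  induction hn : ρ x using Nat.strong_induction_on generalizing x with
  | _ n ih =>
    by_cases hx : x = r
    · subst hx
      exact Reachable.refl _
    · exact (h.adj x hx).reachable.trans (ih (ρ (par x)) (hn ▸ h.lt x hx) (par x) rfl)

theorem Par.isTree [Finite V] {par : V → V} {ρ : V → ℕ} (h : Par G r par ρ) : G.IsTree := by
  classical
  have hconn : G.Connected := by
    haveI : Nonempty V := ⟨r⟩
    exact ⟨fun x y => (h.reachable x).trans (h.reachable y).symm⟩
  rw [isTree_iff_connected_and_card]
  refine ⟨hconn, le_antisymm ?_ hconn.card_vert_le_card_edgeSet_add_one⟩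
  let F : {x : V // x ≠ r} → G.edgeSet := fun x => ⟨s(x.1, par x.1), h.adj x.1 x.2⟩
  have hF : Function.Surjective F := by
    rintro ⟨e, he⟩
    induction e using Sym2.ind with
    | _ x y =>
      rcases h.edge x y he with ⟨h1, h2⟩ | ⟨h1, h2⟩
      · exact ⟨⟨x, h1⟩, Subtype.ext (by simp only [F, h2])⟩
      · exact ⟨⟨y, h1⟩, Subtype.ext (by simp only [F, h2]; exact Sym2.eq_swap)⟩
  have h1 := Nat.card_le_card_of_surjective F hF
  have h2 : Nat.card {x : V // x ≠ r} + 1 = Nat.card V := by
    have := Fintype.ofFinite V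
    rw [Nat.card_eq_fintype_card, Nat.card_eq_fintype_card, Fintype.card_subtype_compl,
      Fintype.card_subtype_eq]
    have : 0 < Fintype.card V := Fintype.card_pos_iff.2 ⟨r⟩
    omega
  omega

theorem exists_par [Finite V] (hG : G.IsTree) (r : V) : ∃ par ρ, Par G r par ρ := by
  classical
  have hconn := hG.1
  have hex : ∀ x, ∃ y, x ≠ r → (G.Adj x y ∧ G.dist r y < G.dist r x) := by
    intro x
    by_cases hx : x = r
    · exact ⟨x, fun h => absurd hx h⟩
    · obtain ⟨p, hp, hlen⟩ := hconn.exists_path_of_dist r x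
      have hnil : ¬ p.Nil := by
        intro hn
        exact hx hn.eq.symm
      refine ⟨p.penultimate, fun _ => ⟨(p.adj_penultimate hnil).symm, ?_⟩⟩
      have h1 : G.dist r p.penultimate ≤ p.dropLast.length := dist_le _
      have h2 : p.dropLast.length + 1 = p.length := by
        have := p.length_dropLast_add_one hnil
        exact this
      omega
  choose par hpar using hex
  refine ⟨par, G.dist r, ⟨fun x hx => (hpar x hx).1, fun x hx => (hpar x hx).2, ?_⟩⟩
  let F : {x : V // x ≠ r} → G.edgeSet := fun x => ⟨s(x.1, par x.1), (hpar x.1 x.2).1⟩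
  have hinj : Function.Injective F := by
    rintro ⟨x, hx⟩ ⟨y, hy⟩ hxy
    have h1 : s(x, par x) = s(y, par y) := congrArg Subtype.val hxy
    rw [Sym2.eq_iff] at h1
    rcases h1 with ⟨h1, -⟩ | ⟨h1, h2⟩
    · exact Subtype.ext h1
    · exfalso
      have h3 := (hpar x hx).2
      have h4 := (hpar y hy).2
      rw [h2] at h3
      rw [← h1] at h4
      omega
  have hcard : Nat.card {x : V // x ≠ r} = Nat.card G.edgeSet := by
    have h1 := (isTree_iff_connected_and_card.1 hG).2
    have h2 : Nat.card {x : V // x ≠ r} + 1 = Nat.card V := by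
      have := Fintype.ofFinite V
      rw [Nat.card_eq_fintype_card, Nat.card_eq_fintype_card, Fintype.card_subtype_compl,
        Fintype.card_subtype_eq]
      have : 0 < Fintype.card V := Fintype.card_pos_iff.2 ⟨r⟩
      omega
    omega
  have hsurj : Function.Surjective F := by
    have := Fintype.ofFinite V
    have := Fintype.ofFinite G.edgeSet
    rw [Nat.card_eq_fintype_card, Nat.card_eq_fintype_card] at hcard
    exact ((Fintype.bijective_iff_injective_and_card F).2 ⟨hinj, hcard⟩).2
  intro x y hxy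
  obtain ⟨⟨z, hz⟩, hzxy⟩ := hsurj ⟨s(x, y), hxy⟩
  have h1 : s(z, par z) = s(x, y) := congrArg Subtype.val hzxy
  rw [Sym2.eq_iff] at h1
  rcases h1 with ⟨rfl, rfl⟩ | ⟨rfl, rfl⟩
  · exact Or.inl ⟨hz, rfl⟩
  · exact Or.inr ⟨hz, rfl⟩

end Pool.Agent.R815.Root
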