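import Pool.Agent.R815.Root.Maps
import Pool.Agent.R815.Root.Par

/-!
# Splitting an edge, and copying a branch at the root
-/

set_option autoImplicit false

namespace Pool.Agent.R815.Root

open Relation

/-- the graph with the edge `a b` split by the vertex `none` -/
def splitG {V : Type} (G : SimpleGraph V) (a b : V) : SimpleGraph (Option V) where
  Adj s t := match s, t with
    | none, none => False
    | none, some x => x = a ∨ x = b
    | some x, none => x = a ∨ x = b
    | some x, some y => G.Adj x y ∧ ¬ (x = a ∧ y = b) ∧ ¬ (x = b ∧ y = a)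
  symm := ⟨by
    rintro (_ | x) (_ | y) h
    · exact h
    · exact h
    · exact h
    · exact ⟨h.1.symm, fun h' => h.2.2 ⟨h'.2, h'.1⟩, fun h' => h.2.1 ⟨h'.2, h'.1⟩⟩⟩
  loopless := ⟨by
    rintro (_ | x) h
    · exact h
    · exact G.irrefl h.1⟩

theorem splitG_comm {V : Type} (G : SimpleGraph V) (a b : V) : splitG G a b = splitG G b a := by
  ext s t
  rcases s with _ | x <;> rcases t with _ | y
  · exact Iff.rfl
  · exact or_comm
  · exact or_comm
  · show (G.Adj x y ∧ _ ∧ _) ↔ (G.Adj x y ∧ _ ∧ _)
    tauto

theorem splitG_par {V : Type} {G : SimpleGraph V} {r a b : V} {par : V → V} {ρ : V → ℕ}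
    (h : Par G r par ρ) (ha : a ≠ r) (hpar : par a = b) : ∃ par' ρ',
      Par (splitG G a b) (some r) par' ρ' := by
  classical
  refine ⟨fun s => match s with
    | none => some b
    | some x => if x = a then none else some (par x), fun s => match s with
    | none => 2 * ρ a - 1
    | some x => 2 * ρ x, ⟨?_, ?_, ?_⟩⟩
  · rintro (_ | x) hx
    · exact Or.inr rfl
    · have hxr : x ≠ r := fun h => hx (congrArg some h)
      by_cases hxa : x = a
      · simp only [hxa, if_true]
        exact Or.inl rfl
      · simp only [hxa, if_false]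
        refine ⟨h.adj x hxr, fun h' => hxa h'.1, ?_⟩
        rintro ⟨rfl, h2⟩
        have h3 := h.lt x hxr
        have h4 := h.lt a ha
        rw [h2] at h3
        rw [hpar] at h4
        omega
  · rintro (_ | x) hx
    · have h4 := h.lt a ha
      rw [hpar] at h4
      show 2 * ρ b < 2 * ρ a - 1
      omega
    · have hxr : x ≠ r := fun h => hx (congrArg some h)
      by_cases hxa : x = a
      · subst hxa
        simp only [if_true]
        have h4 := h.lt x ha
        omega
      · simp only [hxa, if_false]
        have := h.lt x hxr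
        omega
  · have h1 : ∀ x y : V, (G.Adj x y ∧ ¬ (x = a ∧ y = b) ∧ ¬ (x = b ∧ y = a)) → x ≠ r ∧ par x = y →
        some x ≠ some r ∧ (if x = a then none else some (par x)) = some y := by
      rintro x y ⟨h1, h2, h3⟩ ⟨h4, h5⟩
      refine ⟨fun h => h4 (Option.some_injective _ h), ?_⟩
      have hxa : x ≠ a := by
        rintro rfl
        exact h2 ⟨rfl, h5.symm.trans hpar⟩
      rw [if_neg hxa, h5]
    rintro (_ | x) (_ | y) hxy
    · exact absurd hxy id
    · have hxy' : y = a ∨ y = b := hxy
      rcases hxy' with rfl | rfl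
      · right
        exact ⟨fun h => ha (Option.some_injective _ h), if_pos rfl⟩
      · left
        exact ⟨by simp, rfl⟩
    · have hxy' : x = a ∨ x = b := hxy
      rcases hxy' with rfl | rfl
      · left
        exact ⟨fun h => ha (Option.some_injective _ h), if_pos rfl⟩
      · right
        exact ⟨by simp, rfl⟩
    · have hxy' : G.Adj x y ∧ ¬ (x = a ∧ y = b) ∧ ¬ (x = b ∧ y = a) := hxy
      rcases h.edge x y hxy'.1 with h2 | h2
      · left
        exact h1 x y hxy' h2
      · right
        exact h1 y x ⟨hxy'.1.symm, fun h' => hxy'.2.2 ⟨h'.2, h'.1⟩, fun h' => hxy'.2.1 ⟨h'.2, h'.1⟩⟩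
          h2

theorem exists_split (T : RTree) {a b : T.V} (hab : T.G.Adj a b) {e : T.V} (he : e = a ∨ e = b) :
    ∃ (A : RTree) (φ : A.V → T.V) (i : T.V → A.V) (c : A.V), Conf A T φ ∧
      (∀ s, s = c ∨ ∃ x, s = i x) ∧
      (∀ x y, A.G.Adj (i x) (i y) → T.G.Adj x y ∧ ¬ (x = a ∧ y = b) ∧ ¬ (x = b ∧ y = a)) ∧
      (∀ x, A.G.Adj c (i x) → x = a ∨ x = b) ∧ i T.root = A.root ∧ (∀ x, φ (i x) = x) ∧
      φ c = e := by
  have hfin := T.fin
  have htree : (splitG T.G a b).IsTree := by
    obtain ⟨par, ρ, h⟩ := exists_par T.tree T.root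
    rcases h.edge a b hab with ⟨h1, h2⟩ | ⟨h1, h2⟩
    · obtain ⟨par', ρ', h'⟩ := splitG_par h h1 h2
      exact h'.isTree
    · obtain ⟨par', ρ', h'⟩ := splitG_par h h1 h2
      rw [splitG_comm]
      exact h'.isTree
  let A : RTree := ⟨Option T.V, inferInstance, splitG T.G a b, htree, some T.root⟩
  let φ : A.V → T.V := fun s => match s with
    | none => e
    | some x => x
  have hstep : SplitStep A T φ := by
    refine ⟨fun x => some x, none, a, b, Option.some_injective _, fun x => by simp, ?_, hab,
      fun x y => Iff.rfl, fun x => Iff.rfl, rfl, fun x => rfl, he⟩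
    rintro (_ | x)
    · exact Or.inl rfl
    · exact Or.inr ⟨x, rfl⟩
  refine ⟨A, φ, fun x => some x, none, ?_, ?_, fun x y h => h, fun x h => h, rfl, fun x => rfl,
    rfl⟩
  · exact Conf.split hstep (Conf.iso SimpleGraph.Iso.refl rfl)
  · rintro (_ | x)
    · exact Or.inl rfl
    · exact Or.inr ⟨x, rfl⟩

/-- the graph with the set `C` of vertices copied and attached to the root -/
def copyG {V : Type} (G : SimpleGraph V) (r : V) (C : Set V) : SimpleGraph (V ⊕ C) where
  Adj s t := match s, t with
    | Sum.inl x, Sum.inl y => G.Adj x y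
    | Sum.inl x, Sum.inr y => x = r ∧ G.Adj r y
    | Sum.inr x, Sum.inl y => y = r ∧ G.Adj r x
    | Sum.inr x, Sum.inr y => G.Adj x y
  symm := ⟨by
    rintro (x | x) (y | y) h
    · exact (show G.Adj x y from h).symm
    · exact h
    · exact h
    · exact (show G.Adj (x : V) (y : V) from h).symm⟩
  loopless := ⟨by
    rintro (x | x) h
    · exact G.irrefl h
    · exact G.irrefl h⟩

theorem root_notMem_comp (T : RTree) {x₀ : T.V} (hx₀ : x₀ ≠ T.root) :
    T.root ∉ T.comp T.root x₀ := by
  intro h
  have h' : ReflTransGen (fun u w => T.G.Adj u w ∧ w ≠ T.root) x₀ T.root := h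
  rcases ReflTransGen.cases_tail h' with h | ⟨c, -, -, h⟩
  · exact hx₀ h.symm
  · exact h rfl

theorem exists_copy (T : RTree) {x₀ : T.V} (hx₀ : x₀ ≠ T.root) :
    ∃ (A : RTree) (φ : A.V → T.V) (i : T.V → A.V) (j : T.comp T.root x₀ → A.V), Conf A T φ ∧
      (∀ s, (∃ x, s = i x) ∨ ∃ y, s = j y) ∧ (∀ x y, i x ≠ j y) ∧
      (∀ x y, A.G.Adj (i x) (j y) → x = T.root) ∧ i T.root = A.root ∧ (∀ x, φ (i x) = x) ∧
      (∀ y, φ (j y) = y) := by
  classical
  have hfin := T.fin
  have hrC := root_notMem_comp T hx₀
  set C := T.comp T.root x₀ with hC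
  have htree : (copyG T.G T.root C).IsTree := by
    obtain ⟨par, ρ, h⟩ := exists_par T.tree T.root
    have hne : ∀ y ∈ C, y ≠ T.root := by
      rintro y hy rfl
      exact hrC hy
    have hmem : ∀ y ∈ C, par y ≠ T.root → par y ∈ C := fun y hy hpy =>
      ReflTransGen.tail hy ⟨h.adj y (hne y hy), hpy⟩
    have h' : Par (copyG T.G T.root C) (Sum.inl T.root)
        (fun s => match s with
          | Sum.inl x => Sum.inl (par x)
          | Sum.inr y => if hy : par y = T.root then Sum.inl T.root
              else Sum.inr ⟨par y, hmem y y.2 hy⟩)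
        (fun s => match s with
          | Sum.inl x => ρ x
          | Sum.inr y => ρ y) := by
      refine ⟨?_, ?_, ?_⟩
      · rintro (x | y) hx
        · have hxr : x ≠ T.root := fun h => hx (congrArg Sum.inl h)
          exact h.adj x hxr
        · by_cases hy : par y = T.root
          · simp only [hy, dif_pos]
            refine ⟨rfl, ?_⟩
            have := h.adj y (hne y y.2)
            rw [hy] at this
            exact this.symm
          · simp only [hy, dif_neg, not_false_eq_true]
            exact h.adj y (hne y y.2)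
      · rintro (x | y) hx
        · have hxr : x ≠ T.root := fun h => hx (congrArg Sum.inl h)
          exact h.lt x hxr
        · by_cases hy : par y = T.root
          · simp only [hy, dif_pos]
            have := h.lt y (hne y y.2)
            rwa [hy] at this
          · simp only [hy, dif_neg, not_false_eq_true]
            exact h.lt y (hne y y.2)
      · have hcase : ∀ x : T.V, ∀ y : C, T.G.Adj T.root y → x = T.root →
            par y = T.root := by
          intro x y hadj _
          rcases h.edge _ _ hadj with ⟨h1, -⟩ | ⟨-, h2⟩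
          · exact absurd rfl h1
          · exact h2
        rintro (x | x) (y | y) hxy
        · have hxy' : T.G.Adj x y := hxy
          rcases h.edge x y hxy' with ⟨h1, h2⟩ | ⟨h1, h2⟩
          · left
            exact ⟨fun h => h1 (Sum.inl_injective h), congrArg Sum.inl h2⟩
          · right
            exact ⟨fun h => h1 (Sum.inl_injective h), congrArg Sum.inl h2⟩
        · obtain ⟨rfl, hadj⟩ : x = T.root ∧ T.G.Adj T.root y := hxy
          right
          have := hcase T.root y hadj rfl
          exact ⟨by simp, by simp only [this, dif_pos]⟩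
        · obtain ⟨rfl, hadj⟩ : y = T.root ∧ T.G.Adj T.root x := hxy
          left
          have := hcase T.root x hadj rfl
          exact ⟨by simp, by simp only [this, dif_pos]⟩
        · have hxy' : T.G.Adj x y := hxy
          rcases h.edge _ _ hxy' with ⟨h1, h2⟩ | ⟨h1, h2⟩
          · left
            refine ⟨by simp, ?_⟩
            have h3 : ¬ par x = T.root := by
              rw [h2]
              exact hne y y.2
            simp only [dif_neg h3]
            congr 1
            exact Subtype.ext h2
          · right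
            refine ⟨by simp, ?_⟩
            have h3 : ¬ par y = T.root := by
              rw [h2]
              exact hne x x.2
            simp only [dif_neg h3]
            congr 1
            exact Subtype.ext h2
    exact h'.isTree
  let A : RTree := ⟨T.V ⊕ C, inferInstance, copyG T.G T.root C, htree, Sum.inl T.root⟩
  let φ : A.V → T.V := fun s => match s with
    | Sum.inl x => x
    | Sum.inr y => y
  have hstep : CopyStep A T φ := by
    refine ⟨T.root, x₀, fun x => Sum.inl x, fun y => Sum.inr y, hx₀, hrC, Sum.inl_injective,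
      Sum.inr_injective, fun x y => by simp, ?_, fun x y => Iff.rfl, fun x y => Iff.rfl,
      fun x y => Iff.rfl, rfl, fun x => rfl, fun x => rfl⟩
    rintro (x | y)
    · exact Or.inl ⟨x, rfl⟩
    · exact Or.inr ⟨y, rfl⟩
  refine ⟨A, φ, fun x => Sum.inl x, fun y => Sum.inr y, ?_, ?_, fun x y => by simp, ?_, rfl,
    fun x => rfl, fun x => rfl⟩
  · exact Conf.copy hstep (Conf.iso SimpleGraph.Iso.refl rfl)
  · rintro (x | y)
    · exact Or.inl ⟨x, rfl⟩
    · exact Or.inr ⟨y, rfl⟩
  · intro x y h
    exact h.1

end Pool.Agent.R815.Root
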