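import Mathlib

/-!
# Finite rooted trees, simple*-confluent maps, Fraisse sequences and the limit space
-/

set_option autoImplicit false

namespace Pool.Agent.R815.Root

/-- a finite rooted tree -/
structure RTree where
  /-- the vertices -/
  V : Type
  /-- finitely many -/
  fin : Finite V
  /-- the edges between distinct vertices -/
  G : SimpleGraph V
  /-- the graph is a tree -/
  tree : G.IsTree
  /-- the root -/
  root : V

/-- the reflexive edge relation of a tree -/
def RTree.E (T : RTree) (x y : T.V) : Prop := x = y ∨ T.G.Adj x y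

instance (T : RTree) : TopologicalSpace T.V := ⊥

instance (T : RTree) : DiscreteTopology T.V := ⟨rfl⟩

instance (T : RTree) : Finite T.V := T.fin

/-- Step 1: `S` is obtained from `T` by splitting an edge `⟨a, b⟩` by a new vertex `c`, which is
sent to `a` or to `b`; the other vertices are fixed. Here `i` is the inclusion of the old
vertices. -/
def SplitStep (S T : RTree) (f : S.V → T.V) : Prop :=
  ∃ (i : T.V → S.V) (c : S.V) (a b : T.V),
    Function.Injective i ∧ (∀ x, i x ≠ c) ∧ (∀ s, s = c ∨ ∃ x, s = i x) ∧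
    T.G.Adj a b ∧
    (∀ x y, S.G.Adj (i x) (i y) ↔ T.G.Adj x y ∧ ¬ (x = a ∧ y = b) ∧ ¬ (x = b ∧ y = a)) ∧
    (∀ x, S.G.Adj c (i x) ↔ x = a ∨ x = b) ∧
    i T.root = S.root ∧ (∀ x, f (i x) = x) ∧ (f c = a ∨ f c = b)

/-- the component of `x₀` in the graph with the vertex `v` removed -/
def RTree.comp (T : RTree) (v x₀ : T.V) : Set T.V :=
  {y | Relation.ReflTransGen (fun u w => T.G.Adj u w ∧ w ≠ v) x₀ y}

/-- Step 2: `S` is obtained from `T` by choosing a vertex `v` and a component `C` of `T` minus `v`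
not containing the root, and adding a disjoint copy of `C` attached to `v` in the same way, the
copy being mapped onto `C`; the other vertices are fixed. Here `i` is the inclusion of the old
vertices and `j` the copying map. -/
def CopyStep (S T : RTree) (f : S.V → T.V) : Prop :=
  ∃ (v x₀ : T.V) (i : T.V → S.V) (j : T.comp v x₀ → S.V),
    x₀ ≠ v ∧ T.root ∉ T.comp v x₀ ∧
    Function.Injective i ∧ Function.Injective j ∧ (∀ x y, i x ≠ j y) ∧
    (∀ s, (∃ x, s = i x) ∨ ∃ y, s = j y) ∧
    (∀ x y, S.G.Adj (i x) (i y) ↔ T.G.Adj x y) ∧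
    (∀ x y, S.G.Adj (j x) (j y) ↔ T.G.Adj x y) ∧
    (∀ x y, S.G.Adj (i x) (j y) ↔ x = v ∧ T.G.Adj v y) ∧
    i T.root = S.root ∧ (∀ x, f (i x) = x) ∧ (∀ y, f (j y) = y)

/-- Step 3: `S` is obtained from `T` by attaching a new vertex `w` by an edge to a vertex `v`,
sending `w` to `v`; the other vertices are fixed. -/
def LeafStep (S T : RTree) (f : S.V → T.V) : Prop :=
  ∃ (i : T.V → S.V) (w : S.V) (v : T.V),
    Function.Injective i ∧ (∀ x, i x ≠ w) ∧ (∀ s, s = w ∨ ∃ x, s = i x) ∧
    (∀ x y, S.G.Adj (i x) (i y) ↔ T.G.Adj x y) ∧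
    (∀ x, S.G.Adj w (i x) ↔ x = v) ∧
    i T.root = S.root ∧ (∀ x, f (i x) = x) ∧ f w = v

/-- the simple*-confluent maps `S → T`: composites of an isomorphism of rooted trees with finitely
many step maps -/
inductive Conf : (S T : RTree) → (S.V → T.V) → Prop
  | iso {S T : RTree} (e : S.G ≃g T.G) (he : e S.root = T.root) : Conf S T e
  | split {R S T : RTree} {g : R.V → S.V} {f : S.V → T.V} (hg : SplitStep R S g)
      (hf : Conf S T f) : Conf R T (f ∘ g)
  | copy {R S T : RTree} {g : R.V → S.V} {f : S.V → T.V} (hg : CopyStep R S g)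
      (hf : Conf S T f) : Conf R T (f ∘ g)
  | leaf {R S T : RTree} {g : R.V → S.V} {f : S.V → T.V} (hg : LeafStep R S g)
      (hf : Conf S T f) : Conf R T (f ∘ g)

/-- the composite `α_m ∘ ⋯ ∘ α_{m + k - 1}` -/
def comp (F : ℕ → RTree) (α : ∀ n, (F (n + 1)).V → (F n).V) (m : ℕ) :
    (k : ℕ) → (F (m + k)).V → (F m).V
  | 0 => id
  | k + 1 => comp F α m k ∘ α (m + k)

/-- an inverse sequence of finite rooted trees and simple*-confluent maps whose limit is the
projective Fraisse limit of the family -/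
structure IsFraisseSeq (F : ℕ → RTree) (α : ∀ n, (F (n + 1)).V → (F n).V) : Prop where
  conf : ∀ n, Conf (F (n + 1)) (F n) (α n)
  universal : ∀ A : RTree, ∃ (n : ℕ) (φ : (F n).V → A.V), Conf (F n) A φ
  extension : ∀ (m : ℕ) (A : RTree) (φ : A.V → (F m).V), Conf A (F m) φ →
    ∃ (k : ℕ) (ψ : (F (m + k)).V → A.V), Conf (F (m + k)) A ψ ∧ φ ∘ ψ = comp F α m k

/-- the vertex space of the limit -/
def Lim (F : ℕ → RTree) (α : ∀ n, (F (n + 1)).V → (F n).V) : Type :=
  {x : ∀ n, (F n).V // ∀ n, α n (x (n + 1)) = x n}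

instance (F : ℕ → RTree) (α : ∀ n, (F (n + 1)).V → (F n).V) : TopologicalSpace (Lim F α) :=
  inferInstanceAs (TopologicalSpace {x : ∀ n, (F n).V // ∀ n, α n (x (n + 1)) = x n})

/-- the edge relation of the limit -/
def EdgeRel (F : ℕ → RTree) (α : ∀ n, (F (n + 1)).V → (F n).V) (x y : Lim F α) : Prop :=
  ∀ n, (F n).E (x.1 n) (y.1 n)

/-- the quotient space of the limit by its edge relation -/
abbrev Space (F : ℕ → RTree) (α : ∀ n, (F (n + 1)).V → (F n).V) : Type := Quot (EdgeRel F α)

end Pool.Agent.R815.Root
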