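import Pool.Agent.R815.Root.Build

/-!
# The limit space is connected im kleinen exactly at the root
-/

set_option autoImplicit false

namespace Pool.Agent.R815.Root

open Relation Topology Filter Set

theorem exists_thread (m : ℕ) : ∀ (E : ℕ → Type) (d : ∀ n, E (n + 1) → E n)
    (_ : ∀ n, Function.Surjective (d n)) (e : E m),
    ∃ x : ∀ n, E n, (∀ n, d n (x (n + 1)) = x n) ∧ x m = e := by
  induction m with
  | zero =>
    intro E d hd e
    choose up hup using hd
    exact ⟨fun n => Nat.rec e (fun n x => up n x) n, fun n => hup n _, rfl⟩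
  | succ m ih =>
    intro E d hd e
    obtain ⟨x, hx, hxm⟩ := ih (fun n => E (n + 1)) (fun n => d (n + 1)) (fun n => hd (n + 1)) e
    refine ⟨fun n => match n with
      | 0 => d 0 (x 0)
      | n + 1 => x n, ?_, hxm⟩
    rintro (_ | n)
    · rfl
    · exact hx n

variable {F : ℕ → RTree} {α : ∀ n, (F (n + 1)).V → (F n).V}

theorem comp_apply (x : Lim F α) (m k : ℕ) : comp F α m k (x.1 (m + k)) = x.1 m := by
  induction k with
  | zero => rfl
  | succ k ih =>
    show comp F α m k (α (m + k) (x.1 (m + k + 1))) = x.1 m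
    rw [x.2, ih]

theorem agree_le {x y : Lim F α} {n k : ℕ} (hkn : k ≤ n) (h : x.1 n = y.1 n) : x.1 k = y.1 k := by
  induction n, hkn using Nat.le_induction with
  | base => exact h
  | succ n _ ih =>
    apply ih
    rw [← x.2, ← y.2, h]

theorem continuous_coord (n : ℕ) : Continuous fun x : Lim F α => x.1 n :=
  (continuous_apply n).comp continuous_subtype_val

instance : T2Space (Lim F α) :=
  inferInstanceAs (T2Space {x : ∀ n, (F n).V // ∀ n, α n (x (n + 1)) = x n})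

instance : CompactSpace (Lim F α) := by
  have h : IsClosed {x : ∀ n, (F n).V | ∀ n, α n (x (n + 1)) = x n} := by
    rw [ofPred_forall]
    apply isClosed_iInter
    intro n
    exact isClosed_eq (continuous_of_discreteTopology.comp (continuous_apply (n + 1)))
      (continuous_apply n)
  exact isCompact_iff_compactSpace.1 h.isCompact

theorem exists_cyl {x : Lim F α} {U : Set (Lim F α)} (hU : U ∈ 𝓝 x) :
    ∃ n, ∀ y : Lim F α, y.1 n = x.1 n → y ∈ U := by
  by_contra hno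
  push Not at hno
  choose y hy hyU using hno
  have h : Tendsto y atTop (𝓝 x) := by
    have hemb : IsEmbedding (fun z : Lim F α => z.1) := IsEmbedding.subtypeVal
    rw [hemb.tendsto_nhds_iff, tendsto_pi_nhds]
    intro k
    apply tendsto_const_nhds.congr'
    filter_upwards [eventually_ge_atTop k] with n hn
    exact (agree_le hn (hy n)).symm
  obtain ⟨n, hn⟩ := (h.eventually hU).exists
  exact hyU n hn

section

variable (h : IsFraisseSeq F α)
include h

theorem comp_good (m k : ℕ) : Good (F (m + k)) (F m) (comp F α m k) := by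
  induction k with
  | zero =>
    exact ⟨fun x y h => h, rfl, fun p q h => ⟨p, q, h, rfl, rfl⟩, fun D h => h⟩
  | succ k ih => exact ((h.conf (m + k)).good).comp ih

theorem lift_edge {m : ℕ} {p q : (F m).V} (hpq : (F m).E p q) :
    ∃ x y : Lim F α, EdgeRel F α x y ∧ x.1 m = p ∧ y.1 m = q := by
  obtain ⟨e, he, hem⟩ := exists_thread m
    (fun n => {e : (F n).V × (F n).V // (F n).E e.1 e.2})
    (fun n e => ⟨(α n e.1.1, α n e.1.2), (h.conf n).good.edge _ _ e.2⟩)
    (by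
      rintro n ⟨⟨p, q⟩, hpq⟩
      obtain ⟨x, y, hxy, h1, h2⟩ := (h.conf n).good.lift p q hpq
      exact ⟨⟨(x, y), hxy⟩, Subtype.ext (Prod.ext h1 h2)⟩)
    ⟨(p, q), hpq⟩
  refine ⟨⟨fun n => (e n).1.1, fun n => congrArg (fun e => e.1.1) (he n)⟩,
    ⟨fun n => (e n).1.2, fun n => congrArg (fun e => e.1.2) (he n)⟩, fun n => (e n).2, ?_, ?_⟩
  · exact congrArg (fun e => e.1.1) hem
  · exact congrArg (fun e => e.1.2) hem

theorem coord_surj {m : ℕ} (p : (F m).V) : ∃ x : Lim F α, x.1 m = p := by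
  obtain ⟨x, -, -, hx, -⟩ := lift_edge h (m := m) (p := p) (q := p) (Or.inl rfl)
  exact ⟨x, hx⟩

theorem edge_equiv : Equivalence (EdgeRel F α) := by
  refine ⟨fun x n => Or.inl rfl, fun {x y} hxy n => (hxy n).symm, ?_⟩
  intro x y z hxy hyz
  by_contra hno
  rw [EdgeRel] at hno
  push Not at hno
  obtain ⟨m, hm⟩ := hno
  have hxz : x.1 m ≠ z.1 m := fun h' => hm (Or.inl h')
  have h1 := hxy m
  have h2 := hyz m
  rcases h1 with h1 | h1
  · rw [h1] at hm
    exact hm h2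
  rcases h2 with h2 | h2
  · rw [← h2] at hm
    exact hm (Or.inr h1)
  obtain ⟨A, φ, i, c, hconf, hcov, hii, hci, hroot, hφi, hφc⟩ :=
    exists_split (F m) h1 (e := y.1 m) (Or.inr rfl)
  obtain ⟨k, ψ, hψ, hcomp⟩ := h.extension m A φ hconf
  have hφψ : ∀ w : Lim F α, φ (ψ (w.1 (m + k))) = w.1 m := by
    intro w
    rw [← comp_apply w m k, ← hcomp]
    rfl
  have hu : ψ (x.1 (m + k)) = i (x.1 m) := by
    rcases hcov (ψ (x.1 (m + k))) with hc | ⟨t, ht⟩
    · exfalso
      have := hφψ x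
      rw [hc, hφc] at this
      rw [this] at h1
      exact (F m).G.irrefl h1
    · have := hφψ x
      rw [ht, hφi] at this
      rw [ht, this]
  have hw : ψ (z.1 (m + k)) = i (z.1 m) := by
    rcases hcov (ψ (z.1 (m + k))) with hc | ⟨t, ht⟩
    · exfalso
      have := hφψ z
      rw [hc, hφc] at this
      rw [this] at h2
      exact (F m).G.irrefl h2
    · have := hφψ z
      rw [ht, hφi] at this
      rw [ht, this]
  have e1 := hψ.good.edge _ _ (hxy (m + k))
  have e2 := hψ.good.edge _ _ (hyz (m + k))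
  rw [hu] at e1
  rw [hw] at e2
  rcases hcov (ψ (y.1 (m + k))) with hc | ⟨t, ht⟩
  · rw [hc] at e2
    rcases e2 with e2 | e2
    · rw [e2, hφi] at hφc
      rw [hφc] at h2
      exact (F m).G.irrefl h2
    · rcases hci _ e2 with h3 | h3
      · exact hxz h3.symm
      · rw [h3] at h2
        exact (F m).G.irrefl h2
  · have h3 := hφψ y
    rw [ht, hφi] at h3
    rw [ht, h3] at e1
    rcases e1 with e1 | e1
    · have := congrArg φ e1
      rw [hφi, hφi] at this
      rw [this] at h1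
      exact (F m).G.irrefl h1
    · exact (hii _ _ e1).2.1 ⟨rfl, rfl⟩

/-- the root of the limit -/
def rootL : Lim F α := ⟨fun n => (F n).root, fun n => (h.conf n).good.root⟩

theorem root_alone {y : Lim F α} (hy : EdgeRel F α (rootL h) y) : y = rootL h := by
  by_contra hno
  have hex : ∃ m, y.1 m ≠ (F m).root := by
    by_contra hall
    push Not at hall
    exact hno (Subtype.ext (funext hall))
  obtain ⟨m, hm⟩ := hex
  have h1 : (F m).G.Adj (F m).root (y.1 m) := (hy m).resolve_left (fun h' => hm h'.symm)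
  obtain ⟨A, φ, i, c, hconf, hcov, hii, hci, hroot, hφi, hφc⟩ :=
    exists_split (F m) h1 (e := (F m).root) (Or.inl rfl)
  obtain ⟨k, ψ, hψ, hcomp⟩ := h.extension m A φ hconf
  have hφψ : ∀ w : Lim F α, φ (ψ (w.1 (m + k))) = w.1 m := by
    intro w
    rw [← comp_apply w m k, ← hcomp]
    rfl
  have e1 := hψ.good.edge _ _ (hy (m + k))
  have hu : ψ ((rootL h).1 (m + k)) = i (F m).root := by
    rw [hroot]
    exact hψ.good.root
  have hw : ψ (y.1 (m + k)) = i (y.1 m) := by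
    rcases hcov (ψ (y.1 (m + k))) with hc | ⟨t, ht⟩
    · exfalso
      have := hφψ y
      rw [hc, hφc] at this
      exact hm this.symm
    · have := hφψ y
      rw [ht, hφi] at this
      rw [ht, this]
  rw [hu, hw] at e1
  rcases e1 with e1 | e1
  · have := congrArg φ e1
    rw [hφi, hφi] at this
    exact hm this.symm
  · exact (hii _ _ e1).2.1 ⟨rfl, rfl⟩

theorem mk_eq_iff {x y : Lim F α} :
    (Quot.mk (EdgeRel F α) x = Quot.mk (EdgeRel F α) y) ↔ EdgeRel F α x y :=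
  (edge_equiv h).quot_mk_eq_iff x y

theorem isClosed_edgeRel : IsClosed {p : Lim F α × Lim F α | EdgeRel F α p.1 p.2} := by
  have : {p : Lim F α × Lim F α | EdgeRel F α p.1 p.2}
      = ⋂ n, (fun p : Lim F α × Lim F α => (p.1.1 n, p.2.1 n)) ⁻¹'
        {q : (F n).V × (F n).V | (F n).E q.1 q.2} := by
    ext p
    simp only [mem_iInter]
    rfl
  rw [this]
  apply isClosed_iInter
  intro n
  apply (isClosed_discrete _).preimage
  exact ((continuous_coord n).comp continuous_fst).prodMk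
    ((continuous_coord n).comp continuous_snd)

theorem isClosed_image {K : Set (Lim F α)} (hK : IsClosed K) :
    IsClosed ((Quot.mk (EdgeRel F α)) '' K) := by
  rw [← isQuotientMap_quot_mk.isClosed_preimage]
  have e : Quot.mk (EdgeRel F α) ⁻¹' (Quot.mk (EdgeRel F α) '' K)
      = Prod.snd '' ((Prod.fst ⁻¹' K) ∩ {p : Lim F α × Lim F α | EdgeRel F α p.1 p.2}) := by
    ext x
    constructor
    · rintro ⟨y, hy, hyx⟩
      exact ⟨(y, x), ⟨hy, (mk_eq_iff h).1 hyx⟩, rfl⟩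
    · rintro ⟨⟨y, x'⟩, ⟨hy, hyx⟩, rfl⟩
      exact ⟨y, hy, (mk_eq_iff h).2 hyx⟩
  rw [e]
  exact isClosedMap_snd_of_compactSpace _
    ((hK.preimage continuous_fst).inter (isClosed_edgeRel h))

/-- the cylinder over the root -/
def cyl (n : ℕ) : Set (Lim F α) := {x | x.1 n = (F n).root}

omit h in
theorem isClopen_coord (n : ℕ) (S : Set (F n).V) : IsClopen {x : Lim F α | x.1 n ∈ S} :=
  ⟨(isClosed_discrete S).preimage (continuous_coord n),
    (isOpen_discrete S).preimage (continuous_coord n)⟩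

theorem connected_aux (n k : ℕ) {P Q : Set (Lim F α)} (hPQ : ∀ x ∈ cyl (F := F) (α := α) n, x ∈ P ∨ x ∈ Q)
    (hP : P ⊆ cyl n) (hQ : Q ⊆ cyl n) (hsep : ∀ x ∈ P, ∀ y ∈ Q, x.1 (n + k) ≠ y.1 (n + k))
    (hedge : ∀ x ∈ P, ∀ y ∈ Q, ¬ EdgeRel F α x y) (hroot : rootL h ∈ P) : Q = ∅ := by
  have hD : RootConn (F (n + k)) (comp F α n k ⁻¹' {(F n).root}) := by
    apply (comp_good h n k).conn
    refine ⟨rfl, ?_⟩
    rintro x hx
    rw [mem_singleton_iff] at hx
    subst hx
    exact ReflTransGen.refl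
  have hcyl : ∀ x : Lim F α, x ∈ cyl n ↔ x.1 (n + k) ∈ comp F α n k ⁻¹' {(F n).root} := by
    intro x
    rw [mem_preimage, comp_apply]
    rfl
  have key : ∀ v, ReflTransGen (fun u w => (F (n + k)).G.Adj u w ∧
      w ∈ comp F α n k ⁻¹' {(F n).root}) (F (n + k)).root v → ∃ x ∈ P, x.1 (n + k) = v := by
    intro v hv
    induction hv with
    | refl => exact ⟨rootL h, hroot, rfl⟩
    | @tail u w _ huw ih =>
      obtain ⟨x, hx, rfl⟩ := ih
      obtain ⟨x', y', hxy, h1, h2⟩ := lift_edge h (Or.inr huw.1 : (F (n + k)).E _ _)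
      have hx'c : x' ∈ cyl n := (hcyl x').2 (by rw [h1]; exact (hcyl x).1 (hP hx))
      have hy'c : y' ∈ cyl n := (hcyl y').2 (by rw [h2]; exact huw.2)
      have hx'P : x' ∈ P := by
        rcases hPQ x' hx'c with h3 | h3
        · exact h3
        · exact absurd h1.symm (hsep x hx x' h3)
      rcases hPQ y' hy'c with h3 | h3
      · exact ⟨y', h3, h2⟩
      · exact absurd hxy (hedge x' hx'P y' h3)
  rw [eq_empty_iff_forall_notMem]
  intro y hy
  obtain ⟨x, hx, hxy⟩ := key _ (hD.2 _ ((hcyl y).1 (hQ hy)))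
  exact hsep x hx y hy hxy

theorem isConnected_cyl (n : ℕ) : IsConnected (Quot.mk (EdgeRel F α) '' cyl n) := by
  have hrc : rootL h ∈ cyl n := rfl
  refine ⟨⟨_, rootL h, hrc, rfl⟩, ?_⟩
  rw [isPreconnected_closed_iff]
  intro t t' ht ht' hsub hne hne'
  by_contra hno
  rw [not_nonempty_iff_eq_empty] at hno
  have hcl : IsClosed (cyl (F := F) (α := α) n) := (isClopen_coord n {(F n).root}).1
  have hcont : Continuous (Quot.mk (EdgeRel F α)) := continuous_quot_mk
  let P : Set (Lim F α) := cyl n ∩ Quot.mk (EdgeRel F α) ⁻¹' t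
  let Q : Set (Lim F α) := cyl n ∩ Quot.mk (EdgeRel F α) ⁻¹' t'
  have hPc : IsClosed P := hcl.inter (ht.preimage hcont)
  have hQc : IsClosed Q := hcl.inter (ht'.preimage hcont)
  have hPQ : ∀ x ∈ cyl (F := F) (α := α) n, x ∈ P ∨ x ∈ Q := by
    intro x hx
    rcases hsub ⟨x, hx, rfl⟩ with h1 | h1
    · exact Or.inl ⟨hx, h1⟩
    · exact Or.inr ⟨hx, h1⟩
  have hedge : ∀ x ∈ P, ∀ y ∈ Q, ¬ EdgeRel F α x y := by
    rintro x ⟨hx, hxt⟩ y ⟨hy, hyt⟩ hxy
    have h1 : Quot.mk (EdgeRel F α) x = Quot.mk (EdgeRel F α) y := (mk_eq_iff h).2 hxy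
    have h2 : Quot.mk (EdgeRel F α) x ∈ Quot.mk (EdgeRel F α) '' cyl n ∩ (t ∩ t') := by
      refine ⟨⟨x, hx, rfl⟩, hxt, ?_⟩
      rw [h1]
      exact hyt
    rw [hno] at h2
    exact h2
  -- separation at a finite level
  obtain ⟨m, hm⟩ : ∃ m, ∀ x ∈ P, ∀ y ∈ Q, x.1 m ≠ y.1 m := by
    by_contra hall
    push Not at hall
    have := IsCompact.nonempty_iInter_of_sequence_nonempty_isCompact_isClosed
      (fun m => (P ×ˢ Q) ∩ {p : Lim F α × Lim F α | p.1.1 m = p.2.1 m})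
      (fun m p hp => ⟨hp.1, agree_le (Nat.le_succ m) hp.2⟩)
      (fun m => by
        obtain ⟨x, hx, y, hy, hxy⟩ := hall m
        exact ⟨(x, y), ⟨hx, hy⟩, hxy⟩)
      (((hPc.prod hQc).inter (isClosed_eq ((continuous_coord 0).comp continuous_fst)
        ((continuous_coord 0).comp continuous_snd))).isCompact)
      (fun m => (hPc.prod hQc).inter (isClosed_eq ((continuous_coord m).comp continuous_fst)
        ((continuous_coord m).comp continuous_snd)))
    obtain ⟨⟨x, y⟩, hxy⟩ := this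
    rw [mem_iInter] at hxy
    have hx : x ∈ P := (hxy 0).1.1
    have hy : y ∈ Q := (hxy 0).1.2
    have he : x = y := Subtype.ext (funext fun m => (hxy m).2)
    subst he
    exact hedge x hx x hy (fun n => Or.inl rfl)
  have hm' : ∀ x ∈ P, ∀ y ∈ Q, x.1 (n + m) ≠ y.1 (n + m) := fun x hx y hy h' =>
    hm x hx y hy (agree_le (Nat.le_add_left m n) h')
  obtain ⟨_, ⟨x₁, hx₁, rfl⟩, hx₁t⟩ := hne
  obtain ⟨_, ⟨x₂, hx₂, rfl⟩, hx₂t⟩ := hne'
  rcases hPQ _ hrc with hr | hr
  · have := connected_aux h n m hPQ inter_subset_left inter_subset_left hm' hedge hr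
    have h1 : x₂ ∈ Q := ⟨hx₂, hx₂t⟩
    rw [this] at h1
    exact h1
  · have := connected_aux h n m (fun x hx => (hPQ x hx).symm) inter_subset_left
      inter_subset_left (fun x hx y hy h' => hm' y hy x hx h'.symm)
      (fun x hx y hy hxy => hedge y hy x hx ((edge_equiv h).symm hxy)) hr
    have h1 : x₁ ∈ P := ⟨hx₁, hx₁t⟩
    rw [this] at h1
    exact h1

end

/-- `X` is connected im kleinen at `p` -/
def CIK {X : Type*} [TopologicalSpace X] (p : X) : Prop :=
  ∀ W ∈ 𝓝 p, ∃ N ∈ 𝓝 p, N ⊆ W ∧ IsConnected N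

theorem CIK.map {X Y : Type*} [TopologicalSpace X] [TopologicalSpace Y] (g : X ≃ₜ Y) {p : X}
    (hp : CIK p) : CIK (g p) := by
  intro W hW
  obtain ⟨N, hN, hNW, hNc⟩ := hp (g ⁻¹' W) (g.continuous.continuousAt hW)
  refine ⟨g '' N, ?_, ?_, hNc.image g g.continuous.continuousOn⟩
  · rw [← g.map_nhds_eq]
    exact image_mem_map hN
  · rintro _ ⟨x, hx, rfl⟩
    exact hNW hx

variable (h : IsFraisseSeq F α)
include h

theorem cik_root : CIK (Quot.mk (EdgeRel F α) (rootL h)) := by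
  intro W hW
  have hcont : Continuous (Quot.mk (EdgeRel F α)) := continuous_quot_mk
  obtain ⟨n, hn⟩ := exists_cyl (hcont.continuousAt hW)
  refine ⟨Quot.mk (EdgeRel F α) '' cyl n, ?_, ?_, isConnected_cyl h n⟩
  · have hK : IsClosed ((cyl n : Set (Lim F α))ᶜ) :=
      (isClopen_coord n {(F n).root}).2.isClosed_compl
    have h1 := (isClosed_image h hK).isOpen_compl
    apply mem_of_superset (h1.mem_nhds ?_)
    · intro p hp
      obtain ⟨x, rfl⟩ := Quot.exists_rep p
      refine ⟨x, ?_, rfl⟩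
      by_contra hx
      exact hp ⟨x, hx, rfl⟩
    · rintro ⟨y, hy, hyr⟩
      have h2 := root_alone h ((edge_equiv h).symm ((mk_eq_iff h).1 hyr))
      subst h2
      exact hy rfl
  · rintro _ ⟨x, hx, rfl⟩
    exact hn x hx

theorem not_cik {q : Lim F α} (hq : q ≠ rootL h) : ¬ CIK (Quot.mk (EdgeRel F α) q) := by
  intro hcik
  obtain ⟨m, hm⟩ : ∃ m, Quot.mk (EdgeRel F α) q ∉ Quot.mk (EdgeRel F α) '' cyl m := by
    by_contra hall
    push Not at hall
    apply hq
    apply root_alone h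
    intro k
    obtain ⟨x, hx, hxq⟩ := hall k
    have h1 := (mk_eq_iff h).1 hxq k
    have h2 : x.1 k = (F k).root := hx
    rw [h2] at h1
    exact h1
  have hcl : IsClosed (cyl (F := F) (α := α) m) := (isClopen_coord m {(F m).root}).1
  obtain ⟨N, hN, hNW, hNc⟩ := hcik _ ((isClosed_image h hcl).isOpen_compl.mem_nhds hm)
  have hcont : Continuous (Quot.mk (EdgeRel F α)) := continuous_quot_mk
  obtain ⟨n₀, hn₀⟩ := exists_cyl (hcont.continuousAt hN)
  obtain ⟨n, hn, hmn⟩ : ∃ n, (∀ y : Lim F α, y.1 n = q.1 n → Quot.mk (EdgeRel F α) y ∈ N) ∧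
      m ≤ n :=
    ⟨max n₀ m, fun y hy => hn₀ y (agree_le (le_max_left _ _) hy), le_max_right _ _⟩
  have hNroot : ∀ x : Lim F α, Quot.mk (EdgeRel F α) x ∈ N → x.1 n ≠ (F n).root := by
    intro x hx hxr
    apply hNW hx
    refine ⟨x, ?_, rfl⟩
    exact agree_le (y := rootL h) hmn hxr
  have hq0 : q.1 n ≠ (F n).root := hNroot q (mem_of_mem_nhds hN)
  obtain ⟨A, φ, i, j, hconf, hcov, hij, hadj, hroot, hφi, hφj⟩ := exists_copy (F n) hq0
  obtain ⟨k, ψ, hψ, hcomp⟩ := h.extension n A φ hconf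
  have hφψ : ∀ w : Lim F α, φ (ψ (w.1 (n + k))) = w.1 n := by
    intro w
    rw [← comp_apply w n k, ← hcomp]
    rfl
  have hsurj : ∀ s : A.V, ∃ x : Lim F α, ψ (x.1 (n + k)) = s := by
    intro s
    obtain ⟨p, -, -, hp, -⟩ := hψ.good.lift s s (Or.inl rfl)
    obtain ⟨x, hx⟩ := coord_surj h p
    exact ⟨x, by rw [hx, hp]⟩
  -- the two sides
  let S₁ : Set (F (n + k)).V := {v | ∃ x, x ≠ (F n).root ∧ ψ v = i x}
  let S₂ : Set (F (n + k)).V := {v | ∃ y, ψ v = j y}
  have hside : ∀ x : Lim F α, Quot.mk (EdgeRel F α) x ∈ N →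
      x.1 (n + k) ∈ S₁ ∨ x.1 (n + k) ∈ S₂ := by
    intro x hx
    rcases hcov (ψ (x.1 (n + k))) with ⟨t, ht⟩ | ⟨t, ht⟩
    · left
      refine ⟨t, ?_, ht⟩
      rintro rfl
      have := hφψ x
      rw [ht, hφi] at this
      exact hNroot x hx this.symm
    · exact Or.inr ⟨t, ht⟩
  have hnoedge : ∀ x y : Lim F α, x.1 (n + k) ∈ S₁ → y.1 (n + k) ∈ S₂ → ¬ EdgeRel F α x y := by
    rintro x y ⟨s, hs, hxs⟩ ⟨t, hyt⟩ hxy
    have e1 := hψ.good.edge _ _ (hxy (n + k))
    rw [hxs, hyt] at e1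
    rcases e1 with e1 | e1
    · exact hij _ _ e1
    · exact hs (hadj _ _ e1)
  have hT₁ := isClosed_image h (isClopen_coord (α := α) (n + k) S₁).1
  have hT₂ := isClosed_image h (isClopen_coord (α := α) (n + k) S₂).1
  have hpre := isPreconnected_closed_iff.1 hNc.isPreconnected _ _ hT₁ hT₂ (by
    intro p hp
    obtain ⟨x, rfl⟩ := Quot.exists_rep p
    rcases hside x hp with h1 | h1
    · exact Or.inl ⟨x, h1, rfl⟩
    · exact Or.inr ⟨x, h1, rfl⟩)
  have hmem₁ : ∃ x : Lim F α, x.1 n = q.1 n ∧ x.1 (n + k) ∈ S₁ := by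
    obtain ⟨x, hx⟩ := hsurj (i (q.1 n))
    refine ⟨x, ?_, q.1 n, hq0, hx⟩
    rw [← hφψ x, hx, hφi]
  have hmem₂ : ∃ x : Lim F α, x.1 n = q.1 n ∧ x.1 (n + k) ∈ S₂ := by
    have hqC : q.1 n ∈ (F n).comp (F n).root (q.1 n) := ReflTransGen.refl
    obtain ⟨x, hx⟩ := hsurj (j ⟨q.1 n, hqC⟩)
    refine ⟨x, ?_, ⟨q.1 n, hqC⟩, hx⟩
    rw [← hφψ x, hx, hφj]
  obtain ⟨x₁, hx₁, hx₁S⟩ := hmem₁
  obtain ⟨x₂, hx₂, hx₂S⟩ := hmem₂
  obtain ⟨p, -, ⟨x, hx, rfl⟩, ⟨y, hy, hyx⟩⟩ := hpre ⟨_, hn x₁ hx₁, x₁, hx₁S, rfl⟩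
    ⟨_, hn x₂ hx₂, x₂, hx₂S, rfl⟩
  exact hnoedge x y hx hy ((mk_eq_iff h).1 hyx.symm)

end Pool.Agent.R815.Root
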