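import Pool.Agent.R815.Root.Defs

/-!
# Basic properties of simple*-confluent maps
-/

set_option autoImplicit false

namespace Pool.Agent.R815.Root

open Relation

/-- `D` contains the root and each of its points can be joined to the root inside `D` -/
def RootConn (T : RTree) (D : Set T.V) : Prop :=
  T.root ∈ D ∧ ∀ x ∈ D, ReflTransGen (fun u w => T.G.Adj u w ∧ w ∈ D) T.root x

/-- the properties of simple*-confluent maps that we need -/
structure Good (S T : RTree) (f : S.V → T.V) : Prop where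
  edge : ∀ x y, S.E x y → T.E (f x) (f y)
  root : f S.root = T.root
  lift : ∀ p q, T.E p q → ∃ x y, S.E x y ∧ f x = p ∧ f y = q
  conn : ∀ D, RootConn T D → RootConn S (f ⁻¹' D)

theorem Good.comp {R S T : RTree} {g : R.V → S.V} {f : S.V → T.V} (hg : Good R S g)
    (hf : Good S T f) : Good R T (f ∘ g) where
  edge x y h := hf.edge _ _ (hg.edge _ _ h)
  root := by
    show f (g R.root) = T.root
    rw [hg.root, hf.root]
  lift p q h := by
    obtain ⟨x, y, h1, rfl, rfl⟩ := hf.lift p q h
    obtain ⟨x', y', h2, rfl, rfl⟩ := hg.lift x y h1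
    exact ⟨x', y', h2, rfl, rfl⟩
  conn D h := hg.conn _ (hf.conn D h)

theorem RTree.E.symm {T : RTree} {x y : T.V} (h : T.E x y) : T.E y x := by
  rcases h with rfl | h
  · exact Or.inl rfl
  · exact Or.inr h.symm

theorem good_iso {S T : RTree} (e : S.G ≃g T.G) (he : e S.root = T.root) : Good S T e where
  edge x y h := by
    rcases h with rfl | h
    · exact Or.inl rfl
    · exact Or.inr (e.map_adj_iff.2 h)
  root := he
  lift p q h := by
    refine ⟨e.symm p, e.symm q, ?_, e.apply_symm_apply p, e.apply_symm_apply q⟩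
    rcases h with rfl | h
    · exact Or.inl rfl
    · exact Or.inr (e.symm.map_adj_iff.2 h)
  conn D h := by
    refine ⟨?_, ?_⟩
    · show e S.root ∈ D
      rw [he]
      exact h.1
    · intro x hx
      have h1 := h.2 (e x) hx
      have h2 : ∀ z, ReflTransGen (fun u w => T.G.Adj u w ∧ w ∈ D) T.root z →
          ReflTransGen (fun u w => S.G.Adj u w ∧ w ∈ e ⁻¹' D) S.root (e.symm z) := by
        intro z hz
        induction hz with
        | refl =>
          rw [← he, e.symm_apply_apply]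
        | tail _ hbc ih =>
          refine ih.tail ⟨e.symm.map_adj_iff.2 hbc.1, ?_⟩
          show e (e.symm _) ∈ D
          rw [e.apply_symm_apply]
          exact hbc.2
      have h3 := h2 _ h1
      rwa [e.symm_apply_apply] at h3

theorem good_split {S T : RTree} {f : S.V → T.V} (h : SplitStep S T f) : Good S T f := by
  obtain ⟨i, c, a, b, hi, hic, hcov, hab, hii, hci, hroot, hfi, hfc⟩ := h
  refine ⟨?_, ?_, ?_, ?_⟩
  · have h1 : ∀ x, S.G.Adj c (i x) → T.E (f c) x := by
      intro x hx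
      rcases (hci x).1 hx with rfl | rfl
      · rcases hfc with h | h
        · exact Or.inl h
        · rw [h]
          exact Or.inr hab.symm
      · rcases hfc with h | h
        · rw [h]
          exact Or.inr hab
        · exact Or.inl h
    intro s t hst
    rcases hst with rfl | hst
    · exact Or.inl rfl
    · rcases hcov s with rfl | ⟨x, rfl⟩ <;> rcases hcov t with rfl | ⟨y, rfl⟩
      · exact Or.inl rfl
      · rw [hfi]
        exact h1 y hst
      · rw [hfi]
        exact (h1 x hst.symm).symm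
      · rw [hfi, hfi]
        exact Or.inr ((hii x y).1 hst).1
  · rw [← hroot, hfi]
  · intro p q hpq
    rcases hpq with rfl | hpq
    · exact ⟨i p, i p, Or.inl rfl, hfi p, hfi p⟩
    · by_cases h1 : p = a ∧ q = b
      · obtain ⟨rfl, rfl⟩ := h1
        rcases hfc with h | h
        · exact ⟨c, i q, Or.inr ((hci q).2 (Or.inr rfl)), h, hfi q⟩
        · exact ⟨i p, c, Or.inr ((hci p).2 (Or.inl rfl)).symm, hfi p, h⟩
      · by_cases h2 : p = b ∧ q = a
        · obtain ⟨rfl, rfl⟩ := h2
          rcases hfc with h | h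
          · exact ⟨i p, c, Or.inr ((hci p).2 (Or.inr rfl)).symm, hfi p, h⟩
          · exact ⟨c, i q, Or.inr ((hci q).2 (Or.inl rfl)), h, hfi q⟩
        · exact ⟨i p, i q, Or.inr ((hii p q).2 ⟨hpq, h1, h2⟩), hfi p, hfi q⟩
  · rintro D ⟨hr, hD⟩
    have hfD : ∀ x, i x ∈ f ⁻¹' D ↔ x ∈ D := by
      intro x
      show f (i x) ∈ D ↔ x ∈ D
      rw [hfi]
    have key : ∀ x, ReflTransGen (fun u w => T.G.Adj u w ∧ w ∈ D) T.root x → x ∈ D ∧
        ReflTransGen (fun u w => S.G.Adj u w ∧ w ∈ f ⁻¹' D) S.root (i x) := by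
      intro x hx
      induction hx with
      | refl =>
        rw [hroot]
        exact ⟨hr, ReflTransGen.refl⟩
      | @tail x y _ hxy ih =>
        obtain ⟨hxD, ih⟩ := ih
        obtain ⟨hadj, hyD⟩ := hxy
        refine ⟨hyD, ?_⟩
        by_cases h1 : x = a ∧ y = b
        · obtain ⟨rfl, rfl⟩ := h1
          have hcD : c ∈ f ⁻¹' D := by
            show f c ∈ D
            rcases hfc with h | h <;> rw [h] <;> assumption
          exact (ih.tail ⟨((hci x).2 (Or.inl rfl)).symm, hcD⟩).tail
            ⟨(hci y).2 (Or.inr rfl), (hfD y).2 hyD⟩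
        · by_cases h2 : x = b ∧ y = a
          · obtain ⟨rfl, rfl⟩ := h2
            have hcD : c ∈ f ⁻¹' D := by
              show f c ∈ D
              rcases hfc with h | h <;> rw [h] <;> assumption
            exact (ih.tail ⟨((hci x).2 (Or.inr rfl)).symm, hcD⟩).tail
              ⟨(hci y).2 (Or.inl rfl), (hfD y).2 hyD⟩
          · exact ih.tail ⟨(hii x y).2 ⟨hadj, h1, h2⟩, (hfD y).2 hyD⟩
    refine ⟨?_, ?_⟩
    · rw [← hroot]
      exact (hfD _).2 hr
    · intro s hs
      rcases hcov s with rfl | ⟨x, rfl⟩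
      · rcases hfc with h | h
        · have ha : a ∈ D := by rw [← h]; exact hs
          exact (key a (hD a ha)).2.tail ⟨((hci a).2 (Or.inl rfl)).symm, hs⟩
        · have hb : b ∈ D := by rw [← h]; exact hs
          exact (key b (hD b hb)).2.tail ⟨((hci b).2 (Or.inr rfl)).symm, hs⟩
      · exact (key x (hD x ((hfD x).1 hs))).2

theorem good_copy {S T : RTree} {f : S.V → T.V} (h : CopyStep S T f) : Good S T f := by
  obtain ⟨v, x₀, i, j, hx₀, hrC, hi, hj, hij, hcov, hii, hjj, hvj, hroot, hfi, hfj⟩ := h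
  refine ⟨?_, ?_, ?_, ?_⟩
  · intro s t hst
    rcases hst with rfl | hst
    · exact Or.inl rfl
    · rcases hcov s with ⟨x, rfl⟩ | ⟨x, rfl⟩ <;> rcases hcov t with ⟨y, rfl⟩ | ⟨y, rfl⟩
      · rw [hfi, hfi]
        exact Or.inr ((hii x y).1 hst)
      · rw [hfi, hfj]
        obtain ⟨rfl, h⟩ := (hvj x y).1 hst
        exact Or.inr h
      · rw [hfi, hfj]
        obtain ⟨rfl, h⟩ := (hvj y x).1 hst.symm
        exact Or.inr h.symm
      · rw [hfj, hfj]
        exact Or.inr ((hjj x y).1 hst)
  · rw [← hroot, hfi]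
  · intro p q hpq
    refine ⟨i p, i q, ?_, hfi p, hfi q⟩
    rcases hpq with rfl | hpq
    · exact Or.inl rfl
    · exact Or.inr ((hii p q).2 hpq)
  · rintro D ⟨hr, hD⟩
    have hfD : ∀ x, i x ∈ f ⁻¹' D ↔ x ∈ D := by
      intro x
      show f (i x) ∈ D ↔ x ∈ D
      rw [hfi]
    have key : ∀ x, ReflTransGen (fun u w => T.G.Adj u w ∧ w ∈ D) T.root x →
        ReflTransGen (fun u w => S.G.Adj u w ∧ w ∈ f ⁻¹' D) S.root (i x) ∧
        ∀ hx : x ∈ T.comp v x₀,
          ReflTransGen (fun u w => S.G.Adj u w ∧ w ∈ f ⁻¹' D) S.root (j ⟨x, hx⟩) := by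
      intro x hx
      induction hx with
      | refl =>
        rw [hroot]
        exact ⟨ReflTransGen.refl, fun h => absurd h hrC⟩
      | @tail x y _ hxy ih =>
        obtain ⟨ih1, ih2⟩ := ih
        obtain ⟨hadj, hyD⟩ := hxy
        refine ⟨ih1.tail ⟨(hii x y).2 hadj, (hfD y).2 hyD⟩, ?_⟩
        intro hy
        have hjy : j ⟨y, hy⟩ ∈ f ⁻¹' D := by
          show f (j ⟨y, hy⟩) ∈ D
          rw [hfj]
          exact hyD
        by_cases hx : x = v
        · subst hx
          exact ih1.tail ⟨(hvj x ⟨y, hy⟩).2 ⟨rfl, hadj⟩, hjy⟩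
        · have hxC : x ∈ T.comp v x₀ := ReflTransGen.tail hy ⟨hadj.symm, hx⟩
          exact (ih2 hxC).tail ⟨(hjj ⟨x, hxC⟩ ⟨y, hy⟩).2 hadj, hjy⟩
    refine ⟨?_, ?_⟩
    · rw [← hroot]
      exact (hfD _).2 hr
    · intro s hs
      rcases hcov s with ⟨x, rfl⟩ | ⟨x, rfl⟩
      · exact (key x (hD x ((hfD x).1 hs))).1
      · have hxD : (x : T.V) ∈ D := by
          have h1 : f (j x) ∈ D := hs
          rwa [hfj] at h1
        exact (key x (hD x hxD)).2 x.2

theorem good_leaf {S T : RTree} {f : S.V → T.V} (h : LeafStep S T f) : Good S T f := by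
  obtain ⟨i, w, v, hi, hiw, hcov, hii, hwi, hroot, hfi, hfw⟩ := h
  refine ⟨?_, ?_, ?_, ?_⟩
  · intro s t hst
    rcases hst with rfl | hst
    · exact Or.inl rfl
    · rcases hcov s with rfl | ⟨x, rfl⟩ <;> rcases hcov t with rfl | ⟨y, rfl⟩
      · exact Or.inl rfl
      · rw [hfi, hfw, (hwi y).1 hst]
        exact Or.inl rfl
      · rw [hfi, hfw, (hwi x).1 hst.symm]
        exact Or.inl rfl
      · rw [hfi, hfi]
        exact Or.inr ((hii x y).1 hst)
  · rw [← hroot, hfi]
  · intro p q hpq
    refine ⟨i p, i q, ?_, hfi p, hfi q⟩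
    rcases hpq with rfl | hpq
    · exact Or.inl rfl
    · exact Or.inr ((hii p q).2 hpq)
  · rintro D ⟨hr, hD⟩
    have hfD : ∀ x, i x ∈ f ⁻¹' D ↔ x ∈ D := by
      intro x
      show f (i x) ∈ D ↔ x ∈ D
      rw [hfi]
    have key : ∀ x, ReflTransGen (fun u w => T.G.Adj u w ∧ w ∈ D) T.root x →
        ReflTransGen (fun u w => S.G.Adj u w ∧ w ∈ f ⁻¹' D) S.root (i x) := by
      intro x hx
      induction hx with
      | refl =>
        rw [hroot]
      | @tail x y _ hxy ih =>
        exact ih.tail ⟨(hii x y).2 hxy.1, (hfD y).2 hxy.2⟩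
    refine ⟨?_, ?_⟩
    · rw [← hroot]
      exact (hfD _).2 hr
    · intro s hs
      rcases hcov s with rfl | ⟨x, rfl⟩
      · have hv : v ∈ D := by rw [← hfw]; exact hs
        exact (key v (hD v hv)).tail ⟨((hwi v).2 rfl).symm, hs⟩
      · exact key x (hD x ((hfD x).1 hs))

theorem Conf.good {S T : RTree} {f : S.V → T.V} (h : Conf S T f) : Good S T f := by
  induction h with
  | iso e he => exact good_iso e he
  | split hg _ ih => exact (good_split hg).comp ih
  | copy hg _ ih => exact (good_copy hg).comp ih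
  | leaf hg _ ih => exact (good_leaf hg).comp ih

end Pool.Agent.R815.Root
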